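import Pool.Agent.TH117.GN.Par

/-!
# Parshin's conjecture for varieties generated by abelian varieties with elementary relations between
the Frobenius eigenvalues

Over an algebraic closure of the field with `p` elements each abelian variety is isogenous to the
reduction of an abelian variety of CM type (Honda, Tate). So an abelian variety over the field with
`p ^ a` elements is modelled by `RedAV`: a finite product of CM types `(E i, Φ i)` with Weil numbers
`π i ∈ E i` that satisfy the formula of Shimura and Taniyama; its cohomology of degree `n`, with
coefficients in an algebraically closed field `Ω`, consists of the alternating `n`-forms on
`Ω ⊗ H_1`, on which the Frobenius endomorphism acts by `π`.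

We consider the abelian varieties `Y` that are, over an algebraic closure, isogenous to a product of a
supersingular abelian variety and of powers of the factors of an abelian variety `Z` (any dimension,
any Newton polygons) such that the multiplicative relations between the Frobenius eigenvalues of `Z`,
the square root of the number `q` of elements of the ground field and roots of unity are generated by
relations of the following kinds (`HasElementaryRelations`):

* relations that involve at most two eigenvalues;
* Weil relations of imaginary quadratic fields on products of factors of `Z` of dimension three, four
  or five, or of dimension six if `p` splits in the quadratic field;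
* relations between the Frobenius eigenvalues of a product of factors of `Z` of dimension at most five
  no two of which form an exceptional pair (`IsExceptionalPair`);
* relations between the Frobenius eigenvalues of a product of factors of `Z` of dimension at most
  three, such that any two of these factors whose CM fields have the same Galois closure over `ℚ` are
  isogenous, unless these CM fields are Galois over `ℚ` or one of the two factors is supersingular.

Let `X` be a smooth projective variety over a finite field whose motive is a direct summand of a finite
sum of twists of motives of such abelian varieties (`IsGenerated`, in terms of the motivic cohomology
groups `X i n = H^i(X, ℚ(n))`). Then `K_m(X)` is a torsion group for all `m ≥ 1`, and the groups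
`H^i(X, ℚ(n))` vanish for `i ≠ 2 n`.

Examples are all powers of all abelian varieties of dimension at most five without exceptional pairs
of factors, products of curves (in any number) such that the product of the simple factors of their
Jacobians is as above, symmetric powers of such curves, moduli spaces of stable vector bundles on them,
blow-ups and so on.

The properties of the theory of cycles on the abelian varieties `Y` that are used (`IsChow`,
`IsMotivic`) are Poincaré duality, formal properties of correspondences, the nilpotence of
homologically trivial correspondences (Kimura), the theorem of Quillen for the ground field, and the
algebraicity of the classes in `Alg` (theorems of Tate and Markman). The idea to use the Frobenius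
endomorphism and nilpotence is due to Soulé, Geisser and Kahn.
-/

namespace Pool.Agent.Results.MP_27fd67_ag.ElementaryMotives

open Pool.Agent.TH117.GN.Par

/-- The groups `K_m(X)`, `m ≥ 1`, are torsion groups, and so are the motivic cohomology groups
`H^i(X, ℚ(n))` for `i ≠ 2 n`. -/
theorem result (p : ℕ) [Fact p.Prime] (ν : PadicAlgCl p ≃+* ℂ) (Ω : Type) [Field Ω]
    [IsAlgClosed Ω] [CharZero Ω] (K : ℕ → Type) [∀ m, AddCommGroup (K m)] (X : ℤ → ℤ → Type)
    [∀ i n, AddCommGroup (X i n)] (hX : IsGenerated p ν Ω X) (hK : HasChernCharacter K X) :
    (∀ m, 1 ≤ m → ∀ x : K m, IsTors x) ∧ ∀ i n, i ≠ 2 * n → ∀ x : X i n, IsTors x :=
  ⟨kTheory hX hK, parshin hX⟩

end Pool.Agent.Results.MP_27fd67_ag.ElementaryMotives
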