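import Pool.Agent.TH629.CM.Final

/-!
# Parshin's conjecture and identities for correspondences and automorphisms

`𝒱` is a class of smooth projective geometrically irreducible varieties over the field `k` closed
under products (for the problem: all of them, over a finite field or over its algebraic closure `k`),
`C` is the theory of the Chow groups with rational coefficients (in the form of their formal
properties, `IsChowProj`), and `D` is a theory with values in rational vector spaces on which
correspondences act (`Theory`, `IsAction`). For the problem take `D.M X = K_m(X) ⊗ ℚ`, where `m ≥ 1` is fixed:
a correspondence `Γ ∈ CH(X × Y) ⊗ ℚ` acts by `x ↦ q_*(Γ · p^* x)`, in terms of the decomposition of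
`K_m(X) ⊗ ℚ` as the sum of the motivic cohomology groups `H^{2j-m}(X, ℚ(j))`. The correspondences
`a × b` act as zero (`KillsDecomposables`) because they act through `K_m(k) ⊗ ℚ`, which is zero
(Quillen). Parshin's conjecture is the statement `D.M X = 0` for all `X`, and `VanishesIn D n` its
part for the varieties of dimension `n`. (For the passage from
`X` over a finite field to `X` over its algebraic closure: `K_m(X) ⊗ ℚ` injects by a transfer, and
over the closure it is the direct limit.)

Let `Q` be a residually finite group, `T` a finite subset of `Q`, and `p` a non-zero element of the
free product of the group algebra `ℚ[Q]` and of the algebra of non-commutative polynomials in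
variables `y_j` and in their transposes, that is, a linear combination of words `g_0 v_1 g_1 ⋯ v_N
g_N`, with `g_i` in `Q` and each `v_i` a variable or the transpose of a variable.
These data are an `Ident`, and `Holds D a n 𝒰` says that `p` acts as zero on `D.M U` for all varieties `U` of
dimension `n` in the class `𝒰`, all actions of `Q` on `U` for which the elements of `T` different from
`1` act non-trivially, and all correspondences `P_j ∈ CH^n(U × U)` in the place of the variables.

Theorem. For each dimension `n`, Parshin's conjecture for the varieties of dimension `n` is
equivalent to each single identity `p` in dimension `n`. For all varieties it is equivalent to the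
validity, for infinitely many `n`, of an identity `p_n` in dimension `n`, where the groups `Q_n` and
the `p_n ≠ 0` are arbitrary.

For example, Parshin's conjecture in dimension `n` holds if and only if all involutions of
`n`-dimensional varieties `U` act trivially on `K_m(U) ⊗ ℚ` (`Q` of order two, `p = τ - 1`); if and
only if, for one given finite group `Q`, the space of the `Q`-invariants of `K_m(U) ⊗ ℚ` is zero for
all faithful actions of `Q` on varieties `U` of dimension `n` (`T = Q`, `p` the sum of the elements
of `Q`), or one other isotypical component is zero for them; if and only if all correspondences in
`CH^n(U × U)` commute on `K_m(U) ⊗ ℚ` (`Q` trivial, `p = y_1 y_2 - y_2 y_1`); if and only if each of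
them acts as its transpose; if and only if they satisfy any other given polynomial identity; if and
only if for one given non-trivial word `w` in a free group (which is residually finite)
`w(g_1, …, g_r)` acts trivially on `K_m(U) ⊗ ℚ` for all automorphisms `g_i` of all `U` of dimension
`n`, for example if the images of the groups of automorphisms are solvable of a bounded length. In
each case only varieties `U` in a class `𝒰` need be considered, for example those whose canonical
class is ample.

Hypothesis `IsLarge C 𝒰` (theorem of Bertini): for each finite set `I` and each `S` of dimension `n` there is
an `n`-dimensional complete intersection, in the class `𝒰`, of symmetric divisors in the power `S^I`,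
on which the permutations of `I` act. Hypothesis `hdim`: there are varieties of all dimensions.

Proof. Let `x` be in `K_m(S) ⊗ ℚ`, `S` of dimension `n`, and `N` the largest number of variables in
the words of `p`. As `Q` is residually finite it acts on a finite set `B` with a point `b` at which
the elements of `Q` occurring in `p`, the elements of `T` and `1` take different values. Let `U` be
the complete intersection in the power of `S` with exponent `I = B × {0, …, N}` and
`f_{b, i} : U → S` the projections. For different `(b, i)` and `(c, j)` the correspondence
`f_{c, j *} f_{b, i}^*` is a multiple of `(h × S + S × h)^n`, which acts as zero, and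
`f_{b, i *} f_{b, i}^*` is multiplication by `m ≠ 0`. The group `Q` acts on `U` through `B`. Take a
word `w = g_0 v_1 g_1 ⋯ v_N g_N` of the maximal length `N` which occurs in `p`; by a Vandermonde
argument only the words of length `N` matter. In the place of each variable one puts the sum of the
correspondences `f_{b, i}^* f_{g_{i-1} b, i-1 *}` for the `i` for which `v_i` is this variable, and of
their transposes for the `i` for which `v_i` is its transpose. Then `p` maps `f_{b, 0}^* x` to
`p_w m^N f_{g_N b, N}^* x` plus terms in the spans of the images of the other `f_{c, j}^*`; these
pull-backs are independent.
-/

open CategoryTheory AlgebraicGeometry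

set_option autoImplicit false

universe u v w

namespace Pool.Agent.Results.MP_27fd67_ag.SingleIdentities

open Pool.Agent.H914 Pool.Agent.W492.BB Pool.Agent.TH133 Pool.Agent.TH629.CM.Th

/-- Parshin's conjecture (the vanishing of all `D.M X`) in dimension `n` is equivalent to each single
identity `a n` in dimension `n`, and for all varieties it is equivalent to the validity of the
identity `a n` for infinitely many `n`. -/
theorem result {k : Type u} [Field k] {𝒱 : VarClass k} (C : TheoryData.{u, v, 0} 𝒱 ℚ)
    [IsChowProj C] (D : Theory.{u, v, w} C) (hD : IsAction D) (hdec : KillsDecomposables D)
    (hdim : ∀ e : ℕ, ∃ V : 𝒱.Obj, V.dim = e) (𝒰 : ℕ → 𝒱.Obj → Prop) (h𝒰 : IsLarge C 𝒰)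
    (a : ℕ → Ident) :
    (∀ n, VanishesIn D n ↔ Holds D (a n) n (𝒰 n)) ∧
      ((∀ n, VanishesIn D n) ↔ ∀ N : ℕ, ∃ n, N ≤ n ∧ Holds D (a n) n (𝒰 n)) :=
  vanishing_iff D hD hdec hdim 𝒰 h𝒰 a

end Pool.Agent.Results.MP_27fd67_ag.SingleIdentities
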